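import Pool.Agent.Helper18.RD.Stmts9

set_option autoImplicit false

namespace Pool.Agent.Helper85.RD9

open Finset Pool.Agent.Helper18.RD Pool.Agent.Helper19.RD

theorem cnt (N p i : ℕ) (hp : 0 < p) (J : Finset ℕ) (hJ : J ⊆ range N) :
    (J.filter (fun j : ℕ => (p : ℤ) ∣ (i : ℤ) - j)).card ≤ N / p + 1 := by
  have h : (J.filter (fun j : ℕ => (p : ℤ) ∣ (i : ℤ) - j)).card ≤ (range (N / p + 1)).card := by
    refine card_le_card_of_injOn (fun j => j / p) ?_ ?_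
    · intro j hj
      have hj' := mem_filter.mp (mem_coe.mp hj)
      have h1 : j < N := mem_range.mp (hJ hj'.1)
      simp only [coe_range, Set.mem_Iio]
      exact Nat.lt_succ_of_le (Nat.div_le_div_right h1.le)
    · intro j hj j' hj' hjj
      have h1 := (mem_filter.mp (mem_coe.mp hj)).2
      have h2 := (mem_filter.mp (mem_coe.mp hj')).2
      have h3 : (p : ℤ) ∣ (j : ℤ) - j' := by
        have := dvd_sub h2 h1
        have e : ((i : ℤ) - j') - ((i : ℤ) - j) = (j : ℤ) - j' := by ring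
        rwa [e] at this
      have h4 : j' ≡ j [MOD p] := (Nat.modEq_iff_dvd).mpr h3
      have h5 : j' % p = j % p := h4
      have h6 : j / p = j' / p := hjj
      rw [← Nat.div_add_mod j p, ← Nat.div_add_mod j' p, h5, h6]
  rwa [card_range] at h

theorem omega_le (N r : ℕ) (_hN : 1 ≤ N) (hr : 1 ≤ r) (h : r ≤ N ^ 2) :
    (r.primeFactors.card : ℝ) ≤ 3 * Real.log N := by
  have h1 : 2 ^ r.primeFactors.card ≤ r := by
    calc 2 ^ r.primeFactors.card = ∏ p ∈ r.primeFactors, 2 := by rw [prod_const]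
      _ ≤ ∏ p ∈ r.primeFactors, p := by
          apply prod_le_prod'
          intro p hp
          exact (Nat.prime_of_mem_primeFactors hp).two_le
      _ ≤ r := Nat.le_of_dvd hr (Nat.prod_primeFactors_dvd r)
  have h2 : 2 ^ r.primeFactors.card ≤ N ^ 2 := h1.trans h
  have h3 : ((2 : ℝ)) ^ r.primeFactors.card ≤ (N : ℝ) ^ 2 := by exact_mod_cast h2
  have h4 := Real.log_le_log (by positivity) h3
  rw [Real.log_pow, Real.log_pow] at h4
  have h5 : (0.6931471803 : ℝ) < Real.log 2 := Real.log_two_gt_d9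
  have h6 : (0 : ℝ) ≤ (r.primeFactors.card : ℝ) := Nat.cast_nonneg _
  have h7 : (r.primeFactors.card : ℝ) * (2 / 3) ≤ r.primeFactors.card * Real.log 2 := by
    apply mul_le_mul_of_nonneg_left _ h6
    linarith
  push_cast at h4
  linarith

open Classical in
theorem bad_card (N r l : ℕ) (J : Finset ℕ) (hJ : J ⊆ range N) (hl : 1 ≤ l)
    (hrl : ∀ p : ℕ, p.Prime → p ∣ r → l ≤ p) :
    ((((J ×ˢ J).filter (fun z : ℕ × ℕ => ∃ p ∈ r.primeFactors,
      (p : ℤ) ∣ (z.1 : ℤ) - z.2)).card : ℕ) : ℝ) ≤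
      r.primeFactors.card * (J.card * ((N : ℝ) / l + 1)) := by
  have h1 : (J ×ˢ J).filter (fun z : ℕ × ℕ => ∃ p ∈ r.primeFactors,
      (p : ℤ) ∣ (z.1 : ℤ) - z.2) ⊆ r.primeFactors.biUnion (fun p =>
        J.biUnion (fun i => (J.filter (fun j : ℕ => (p : ℤ) ∣ (i : ℤ) - j)).image
          (fun j => (i, j)))) := by
    intro z hz
    obtain ⟨hz1, p, hp, hz2⟩ := mem_filter.mp hz
    obtain ⟨hz3, hz4⟩ := mem_product.mp hz1
    refine mem_biUnion.mpr ⟨p, hp, mem_biUnion.mpr ⟨z.1, hz3, mem_image.mpr ⟨z.2, ?_, rfl⟩⟩⟩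
    exact mem_filter.mpr ⟨hz4, hz2⟩
  have h2 : ∀ p ∈ r.primeFactors, ∀ i ∈ J,
      ((((J.filter (fun j : ℕ => (p : ℤ) ∣ (i : ℤ) - j)).image
          (fun j => (i, j))).card : ℕ) : ℝ) ≤ (N : ℝ) / l + 1 := by
    intro p hp i _
    have hpp := Nat.prime_of_mem_primeFactors hp
    have h3 : ((J.filter (fun j : ℕ => (p : ℤ) ∣ (i : ℤ) - j)).image
          (fun j => (i, j))).card ≤ N / p + 1 := card_image_le.trans (cnt N p i hpp.pos J hJ)
    have h4 : ((((J.filter (fun j : ℕ => (p : ℤ) ∣ (i : ℤ) - j)).image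
          (fun j => (i, j))).card : ℕ) : ℝ) ≤ ((N / p + 1 : ℕ) : ℝ) := by exact_mod_cast h3
    refine h4.trans ?_
    push_cast
    have h5 : ((N / p : ℕ) : ℝ) ≤ (N : ℝ) / p := Nat.cast_div_le
    have h6 : (l : ℝ) ≤ p := by exact_mod_cast hrl p hpp (Nat.dvd_of_mem_primeFactors hp)
    have h7 : (0 : ℝ) < l := by exact_mod_cast hl
    have h8 : (N : ℝ) / p ≤ (N : ℝ) / l := by gcongr
    linarith
  calc ((((J ×ˢ J).filter (fun z : ℕ × ℕ => ∃ p ∈ r.primeFactors,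
      (p : ℤ) ∣ (z.1 : ℤ) - z.2)).card : ℕ) : ℝ)
      ≤ (((r.primeFactors.biUnion (fun p =>
        J.biUnion (fun i => (J.filter (fun j : ℕ => (p : ℤ) ∣ (i : ℤ) - j)).image
          (fun j => (i, j))))).card : ℕ) : ℝ) := by exact_mod_cast card_le_card h1
    _ ≤ ∑ p ∈ r.primeFactors, (((J.biUnion (fun i =>
          (J.filter (fun j : ℕ => (p : ℤ) ∣ (i : ℤ) - j)).image
          (fun j => (i, j)))).card : ℕ) : ℝ) := by exact_mod_cast card_biUnion_le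
    _ ≤ ∑ _p ∈ r.primeFactors, ((J.card : ℝ) * ((N : ℝ) / l + 1)) := by
        apply sum_le_sum
        intro p hp
        calc (((J.biUnion (fun i =>
          (J.filter (fun j : ℕ => (p : ℤ) ∣ (i : ℤ) - j)).image
          (fun j => (i, j)))).card : ℕ) : ℝ)
            ≤ ∑ i ∈ J, ((((J.filter (fun j : ℕ => (p : ℤ) ∣ (i : ℤ) - j)).image
          (fun j => (i, j))).card : ℕ) : ℝ) := by exact_mod_cast card_biUnion_le
          _ ≤ ∑ _i ∈ J, ((N : ℝ) / l + 1) := sum_le_sum (fun i hi => h2 p hp i hi)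
          _ = (J.card : ℝ) * ((N : ℝ) / l + 1) := by rw [sum_const, nsmul_eq_mul]
    _ = r.primeFactors.card * (J.card * ((N : ℝ) / l + 1)) := by rw [sum_const, nsmul_eq_mul]

theorem st_MAIN9 (hA : ST_A1) (hP : ST_PGX) (hS : ST_SPX) : ST_MAIN9 := by
  classical
  intro ε hε
  obtain ⟨ε1, hε1⟩ : ∃ ε1 : ℝ, ε1 = min (ε / 2) (1 / 10) := ⟨_, rfl⟩
  have hε1a : 0 < ε1 := by rw [hε1]; exact lt_min (by linarith) (by norm_num)
  have hε1b : ε1 ≤ ε / 2 := by rw [hε1]; exact min_le_left _ _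
  have hε1c : ε1 ≤ 1 / 10 := by rw [hε1]; exact min_le_right _ _
  obtain ⟨δ, N0, hδ, hδε, hA⟩ := hA ε1 hε1a hε1c
  obtain ⟨N2, hN2⟩ : ∃ N2 : ℕ, ∀ N : ℕ, N2 ≤ N →
      (32 : ℝ) ≤ (N : ℝ) ^ δ ∧ 300 * Real.log N ≤ (N : ℝ) ^ (ε / 2) := by
    have h1 : ∀ᶠ x : ℝ in Filter.atTop, (32 : ℝ) ≤ x ^ δ :=
      (tendsto_rpow_atTop hδ).eventually_ge_atTop 32
    have h3 := (isLittleO_log_rpow_atTop (show 0 < ε / 2 by linarith)).bound
      (show (0 : ℝ) < 1 / 300 by norm_num)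
    have h4 : ∀ᶠ x : ℝ in Filter.atTop, (32 : ℝ) ≤ x ^ δ ∧ 300 * Real.log x ≤ x ^ (ε / 2) := by
      filter_upwards [h1, h3, Filter.eventually_ge_atTop 1] with x hx hx2 hx1
      refine ⟨hx, ?_⟩
      have h5 : (0 : ℝ) < x ^ (ε / 2) := Real.rpow_pos_of_pos (by linarith) _
      rw [Real.norm_of_nonneg h5.le] at hx2
      have h6 : Real.log x ≤ 1 / 300 * x ^ (ε / 2) := (Real.le_norm_self _).trans hx2
      linarith
    obtain ⟨N2, hN2⟩ := Filter.eventually_atTop.mp (tendsto_natCast_atTop_atTop.eventually h4)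
    exact ⟨N2, fun N hN => hN2 N hN⟩
  obtain ⟨C, hC⟩ : ∃ C : ℝ, C = N0 + N2 + 100 := ⟨_, rfl⟩
  have hN0' : (0 : ℝ) ≤ N0 := Nat.cast_nonneg _
  have hN2' : (0 : ℝ) ≤ N2 := Nat.cast_nonneg _
  have hC100 : 100 ≤ C := by rw [hC]; linarith
  have hCpos : 0 < C := by linarith
  refine ⟨C, hCpos, ?_⟩
  intro N q a r l hN hq hcopa hr2 hrs hro hrq hl hrl
  have hNr : (1 : ℝ) ≤ N := by exact_mod_cast hN
  have hNpos : (0 : ℝ) < N := by linarith
  have hr1 : (2 : ℝ) ≤ r := by exact_mod_cast hr2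
  have hsr1 : 1 ≤ Real.sqrt r := by
    rw [Real.one_le_sqrt]; linarith
  have hlr : (1 : ℝ) ≤ l := by exact_mod_cast hl
  have hNl : 0 ≤ (N : ℝ) / l := by positivity
  have hNsr : 0 ≤ (N : ℝ) / Real.sqrt r := by positivity
  have hNε : 1 ≤ (N : ℝ) ^ ε := Real.one_le_rpow hNr hε.le
  change ((SS N q a).card : ℝ) ≤ _
  obtain ⟨R, hR⟩ : ∃ R : ℝ, R = ((SS N q a).card : ℝ) := ⟨_, rfl⟩
  rw [← hR]
  have hRN : R ≤ N := by
    have h1 : (SS N q a).card ≤ N := by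
      calc (SS N q a).card ≤ (range N).card := card_filter_le _ _
        _ = N := card_range N
    rw [hR]; exact_mod_cast h1
  obtain ⟨Z, hZ⟩ : ∃ Z : ℝ, Z = Real.sqrt r + N / Real.sqrt r + N / l := ⟨_, rfl⟩
  rw [← hZ]
  have hZ1 : 1 + N / l ≤ Z := by rw [hZ]; linarith
  have hZ1' : 1 ≤ Z := by linarith
  have hZr : Real.sqrt r ≤ Z := by rw [hZ]; linarith
  have hZrr : Real.sqrt r + N / Real.sqrt r ≤ Z := by rw [hZ]; linarith
  have hCZ : C * 1 * 1 ≤ C * (N : ℝ) ^ ε * Z := by gcongr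
  by_contra hcon
  push Not at hcon
  -- N is large
  have hNC : C ≤ N := by linarith
  have hNN0 : N0 ≤ N := by
    have : (N0 : ℝ) ≤ N := by linarith
    exact_mod_cast this
  have hNN2 : N2 ≤ N := by
    have : (N2 : ℝ) ≤ N := by linarith
    exact_mod_cast this
  obtain ⟨hb1, hb2⟩ := hN2 N hNN2
  -- r is small
  have hrN : r ≤ N ^ 2 := by
    by_contra hcon2
    push Not at hcon2
    have h1 : ((N ^ 2 : ℕ) : ℝ) ≤ r := by exact_mod_cast hcon2.le
    have h2 : (N : ℝ) ≤ Real.sqrt r := by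
      apply Real.le_sqrt_of_sq_le
      push_cast at h1
      exact h1
    have h3 : 1 * 1 * Real.sqrt r ≤ C * (N : ℝ) ^ ε * Z := by
      gcongr
      linarith
    linarith
  -- many squares
  have hAM : Real.sqrt N ≤ Z := by
    have h1 : Real.sqrt N ≤ Real.sqrt r + N / Real.sqrt r := by
      have h2 : 0 < Real.sqrt r := by linarith
      rcases le_total (Real.sqrt N) (Real.sqrt r) with h | h
      · linarith
      · have h3 : Real.sqrt N ≤ N / Real.sqrt r := by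
          rw [le_div_iff₀ h2]
          calc Real.sqrt N * Real.sqrt r ≤ Real.sqrt N * Real.sqrt N := by gcongr
            _ = N := Real.mul_self_sqrt hNpos.le
        linarith
    linarith
  have hbig : (N : ℝ) ^ (1 / 2 + ε1) ≤ ((SS N q a).card : ℝ) := by
    rw [← hR]
    calc (N : ℝ) ^ (1 / 2 + ε1) ≤ (N : ℝ) ^ (1 / 2 + ε) :=
          Real.rpow_le_rpow_of_exponent_le hNr (by linarith)
      _ = 1 * (N : ℝ) ^ ε * Real.sqrt N := by
          rw [Real.rpow_add hNpos, ← Real.sqrt_eq_rpow]; ring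
      _ ≤ C * (N : ℝ) ^ ε * Z := by
          gcongr
          linarith
      _ ≤ R := hcon.le
  obtain ⟨S, J, e, c, d, k, w, m, hdat, hJS, hJ, hTN⟩ := hA N q a hNN0 hq hcopa hbig
  rw [← hR] at hJ
  have hJsub : J ⊆ range N := by
    intro i hi
    exact (mem_filter.mp (hdat.sub (hJS hi))).1
  -- J is large
  have hJbig : C * (N : ℝ) ^ (ε / 2) * Z < J.card := by
    have h1 : C * (N : ℝ) ^ ε * Z < (N : ℝ) ^ (ε1 / 4) * J.card := lt_of_lt_of_le hcon hJ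
    have h2 : (N : ℝ) ^ ε = (N : ℝ) ^ (ε / 2) * (N : ℝ) ^ (ε / 2) := by
      rw [← Real.rpow_add hNpos]; congr 1; ring
    have h3 : (N : ℝ) ^ (ε1 / 4) ≤ (N : ℝ) ^ (ε / 2) :=
      Real.rpow_le_rpow_of_exponent_le hNr (by linarith)
    have h4 : (N : ℝ) ^ (ε1 / 4) * J.card ≤ (N : ℝ) ^ (ε / 2) * J.card := by gcongr
    have h5 : (N : ℝ) ^ (ε / 2) * (C * (N : ℝ) ^ (ε / 2) * Z) < (N : ℝ) ^ (ε / 2) * J.card := by
      calc (N : ℝ) ^ (ε / 2) * (C * (N : ℝ) ^ (ε / 2) * Z) = C * (N : ℝ) ^ ε * Z := by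
            rw [h2]; ring
        _ < _ := lt_of_lt_of_le h1 h4
    exact lt_of_mul_lt_mul_left h5 (by positivity)
  have hNε2 : 1 ≤ (N : ℝ) ^ (ε / 2) := Real.one_le_rpow hNr (by linarith)
  have hJ100 : (100 : ℝ) ≤ J.card := by
    have h1 : C * 1 * 1 ≤ C * (N : ℝ) ^ (ε / 2) * Z := by gcongr
    linarith
  have hJ100' : 100 ≤ J.card := by exact_mod_cast hJ100
  have hom : (r.primeFactors.card : ℝ) ≤ 3 * Real.log N := omega_le N r hN (by omega) hrN
  have hlog : 0 ≤ Real.log (N : ℝ) := Real.log_natCast_nonneg N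
  have hSP : 100 * (r.primeFactors.card : ℝ) * ((N : ℝ) / l + 1) ≤ J.card := by
    calc 100 * (r.primeFactors.card : ℝ) * ((N : ℝ) / l + 1)
        ≤ 100 * (3 * Real.log N) * Z := by
          gcongr
          linarith
      _ = 1 * (300 * Real.log N) * Z := by ring
      _ ≤ C * (N : ℝ) ^ (ε / 2) * Z := by
          gcongr
          linarith
      _ ≤ J.card := hJbig.le
  obtain ⟨B, hB⟩ : ∃ B : Finset (ℕ × ℕ), B = (J ×ˢ J).filter (fun z : ℕ × ℕ =>
    ∃ p ∈ r.primeFactors, (p : ℤ) ∣ (z.1 : ℤ) - z.2) := ⟨_, rfl⟩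
  have hBc : 4 * B.card ≤ J.card ^ 2 := by
    have h1 := bad_card N r l J hJsub hl hrl
    rw [← hB] at h1
    have h2 : (4 * B.card : ℝ) ≤ (J.card : ℝ) ^ 2 := by nlinarith
    exact_mod_cast h2
  have hξ0 : (0 : ℝ) ≤ (N : ℝ) ^ (-δ) := by positivity
  obtain ⟨x, hx, y, hy, hxy, hxyB, hNQ⟩ := hP J d B ((N : ℝ) ^ (-δ)) (by omega) hξ0 hBc hTN
  have hξ16 : 2 * (N : ℝ) ^ (-δ) ≤ 1 / 16 := by
    rw [Real.rpow_neg hNpos.le]
    have h1 : ((N : ℝ) ^ δ)⁻¹ ≤ (32 : ℝ)⁻¹ := inv_anti₀ (by norm_num) hb1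
    norm_num at h1 ⊢
    linarith
  have hfin := hS N q a r l S J e c d k w (2 * (N : ℝ) ^ (-δ)) m x y hN hq hdat hJS hx hy hxy
    hNQ hξ16 hJ100' hrs hro hrq hl hrl ?_ hSP
  · have h1 : 2 * 1 * (Real.sqrt r + N / Real.sqrt r) ≤ C * (N : ℝ) ^ (ε / 2) * Z := by
      gcongr
      linarith
    linarith
  · intro p hp hpr hdvd
    apply hxyB
    rw [hB]
    refine mem_filter.mpr ⟨mem_product.mpr ⟨hx, hy⟩, p, ?_, hdvd⟩
    exact Nat.mem_primeFactors.mpr ⟨hp, hpr, by omega⟩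

end Pool.Agent.Helper85.RD9
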