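import Pool.Agent.Helper18.RD.Stmts9

set_option autoImplicit false

namespace Pool.Agent.Helper85.RD9

open Finset Pool.Agent.Helper18.RD Pool.Agent.Helper19.RD

theorem st_PGX : ST_PGX := by
  classical
  intro J d B ξ hJ hξ hB hT
  by_contra h
  push Not at h
  have h1 : ∑ p ∈ J.offDiag \ B, (NQ J d p.1 p.2).card ≤ (TN J d).card := by
    rw [← Finset.card_sigma]
    apply Finset.card_le_card_of_injOn (fun s => (s.2.1, s.1.1, s.2.2, s.1.2))
    · rintro ⟨p, z⟩ hs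
      obtain ⟨hp, hz⟩ := Finset.mem_sigma.1 hs
      obtain ⟨hx, hy, hxy⟩ := Finset.mem_offDiag.1 (Finset.mem_sdiff.1 hp).1
      obtain ⟨hz1, hz2⟩ := Finset.mem_filter.1 hz
      obtain ⟨hz11, hz12⟩ := Finset.mem_product.1 hz1
      obtain ⟨c1, c2, c3, c4⟩ := hz2
      refine Finset.mem_coe.2 (Finset.mem_filter.2 ⟨Finset.mem_filter.2 ⟨?_, c1, c2, c3, hxy⟩, c4⟩)
      exact Finset.mem_product.2 ⟨hz11, Finset.mem_product.2 ⟨hx, Finset.mem_product.2
        ⟨hz12, hy⟩⟩⟩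
    · rintro ⟨⟨p1, p2⟩, ⟨z1, z2⟩⟩ _ ⟨⟨p1', p2'⟩, ⟨z1', z2'⟩⟩ _ he
      simp only [Prod.mk.injEq] at he
      obtain ⟨e1, e2, e3, e4⟩ := he
      subst e1 e2 e3 e4
      rfl
  have hJ' : (8 : ℝ) ≤ J.card := by exact_mod_cast hJ
  have hB' : 4 * (B.card : ℝ) ≤ (J.card : ℝ) ^ 2 := by exact_mod_cast hB
  have hoff : ((J.offDiag.card : ℕ) : ℝ) = (J.card : ℝ) * J.card - J.card := by
    rw [Finset.offDiag_card, Nat.cast_sub (Nat.le_mul_of_pos_left _ (by omega))]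
    push_cast
    ring
  have hsd : ((J.offDiag.card : ℕ) : ℝ) ≤ ((J.offDiag \ B).card : ℝ) + B.card := by
    have h0 : J.offDiag.card ≤ (J.offDiag \ B).card + B.card := by
      have h01 := Finset.card_le_card (s := J.offDiag) (t := (J.offDiag \ B) ∪ B) (by
        intro z hz
        by_cases hzB : z ∈ B
        · exact Finset.mem_union_right _ hzB
        · exact Finset.mem_union_left _ (Finset.mem_sdiff.2 ⟨hz, hzB⟩))
      exact h01.trans (Finset.card_union_le _ _)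
    exact_mod_cast h0
  have hlow : (J.card : ℝ) ^ 2 / 2 ≤ ((J.offDiag \ B).card : ℝ) := by nlinarith
  have hne : (J.offDiag \ B).Nonempty := by
    rw [← Finset.card_pos]
    have : (0 : ℝ) < ((J.offDiag \ B).card : ℝ) := by
      have : (0 : ℝ) < (J.card : ℝ) ^ 2 / 2 := by positivity
      linarith
    exact_mod_cast this
  have h2 : ((J.offDiag \ B).card : ℝ) * (2 * ξ * (J.card : ℝ) ^ 2) <
      ∑ p ∈ J.offDiag \ B, ((NQ J d p.1 p.2).card : ℝ) := by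
    rw [← nsmul_eq_mul, ← Finset.sum_const]
    apply Finset.sum_lt_sum_of_nonempty hne
    intro p hp
    obtain ⟨hp1, hp2⟩ := Finset.mem_sdiff.1 hp
    obtain ⟨hx, hy, hxy⟩ := Finset.mem_offDiag.1 hp1
    exact h p.1 hx p.2 hy hxy hp2
  have h3 : ∑ p ∈ J.offDiag \ B, ((NQ J d p.1 p.2).card : ℝ) ≤ ((TN J d).card : ℝ) := by
    exact_mod_cast h1
  have h4 : ξ * (J.card : ℝ) ^ 4 ≤
      ((J.offDiag \ B).card : ℝ) * (2 * ξ * (J.card : ℝ) ^ 2) := by
    calc ξ * (J.card : ℝ) ^ 4 = (J.card : ℝ) ^ 2 / 2 * (2 * ξ * (J.card : ℝ) ^ 2) := by ring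
      _ ≤ _ := mul_le_mul_of_nonneg_right hlow (by positivity)
  linarith

end Pool.Agent.Helper85.RD9
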